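import Mathlib

namespace Pool.Agent.Results.MP_bda3cd_nt.NotExtendable

/-- `a` is a positive integer all of whose prime factors are at most `n`. -/
def Smooth (n a : ℕ) : Prop := 0 < a ∧ ∀ p : ℕ, p.Prime → p ∣ a → p ≤ n

/-- The group of positive rationals `a / b` with `a`, `b` both `n`-smooth. -/
def K (n : ℕ) : Set ℚ := {x | ∃ a b : ℕ, Smooth n a ∧ Smooth n b ∧ x = (a : ℚ) / (b : ℚ)}

/-- An `n`-satisfactory coloring of the `n`-smooth numbers (other values of `c` play no role). -/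
def SatNat (n : ℕ) (c : ℕ → ℕ) : Prop :=
  (∀ x, Smooth n x → 1 ≤ c x ∧ c x ≤ n) ∧ (∀ i, 1 ≤ i → i ≤ n → c i = i) ∧
    ∀ x, Smooth n x → ∀ i j : ℕ, 1 ≤ i → i < j → j ≤ n → c (i * x) ≠ c (j * x)

/-- An `n`-satisfactory coloring of `K n` (values of `c` outside `K n` play no role). -/
def SatRat (n : ℕ) (c : ℚ → ℕ) : Prop :=
  (∀ x ∈ K n, 1 ≤ c x ∧ c x ≤ n) ∧ (∀ i : ℕ, 1 ≤ i → i ≤ n → c (i : ℚ) = i) ∧
    ∀ x ∈ K n, ∀ i j : ℕ, 1 ≤ i → i < j → j ≤ n → c ((i : ℚ) * x) ≠ c ((j : ℚ) * x)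

def col (a b c e : ℕ) : ℕ :=
  if a + c + e = 0 then (if b % 2 = 0 then 1 else 3)
  else if (b + c + e) % 2 = 0 then [3, 2, 4, 8].getD ((a + 3 * c + 2 * e) % 4) 1
  else [1, 6, 5, 7].getD ((a + 2 * c + 3 * e) % 4) 1

def red (a : ℕ) : ℕ := if a = 0 then 0 else (a - 1) % 4 + 1

lemma col_red (i j k l a b c e : ℕ) :
    col (i + a) (j + b) (k + c) (l + e) = col (i + red a) (j + b % 2) (k + red c) (l + red e) := by
  have h : ∀ a, (red a = 0 ↔ a = 0) ∧ red a % 4 = a % 4 := fun a => by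
    unfold red; split_ifs with h
    · simp [h]
    · exact ⟨by simp [h], by omega⟩
  have ha := h a
  have hc := h c
  have he := h e
  have h1 : i + a + (k + c) + (l + e) = 0 ↔ i + red a + (k + red c) + (l + red e) = 0 := by omega
  have h2 : (j + b) % 2 = (j + b % 2) % 2 := by omega
  have h3 : (j + b + (k + c) + (l + e)) % 2 = (j + b % 2 + (k + red c) + (l + red e)) % 2 := by
    omega
  have h4 : (i + a + 3 * (k + c) + 2 * (l + e)) % 4 =
      (i + red a + 3 * (k + red c) + 2 * (l + red e)) % 4 := by omega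
  have h5 : (i + a + 2 * (k + c) + 3 * (l + e)) % 4 =
      (i + red a + 2 * (k + red c) + 3 * (l + red e)) % 4 := by omega
  simp only [col, h1, h2, h3, h4, h5]

def cl (x : ℕ) : ℕ := col (padicValNat 2 x) (padicValNat 3 x) (padicValNat 5 x) (padicValNat 7 x)

def sh (i a b c e : ℕ) : ℕ :=
  col (padicValNat 2 i + a) (padicValNat 3 i + b) (padicValNat 5 i + c) (padicValNat 7 i + e)

lemma key0 : ∀ a ∈ List.range 5, ∀ b ∈ List.range 2, ∀ c ∈ List.range 5, ∀ e ∈ List.range 5,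
    ∀ j ∈ List.range 9, ∀ i ∈ List.range j, 1 ≤ i →
    sh i a b c e ≠ sh j a b c e ∧ 1 ≤ sh 1 a b c e ∧ sh 1 a b c e ≤ 8 := by decide +kernel

lemma key : ∀ a < 5, ∀ b < 2, ∀ c < 5, ∀ e < 5, ∀ j < 9, ∀ i < j, 1 ≤ i →
    sh i a b c e ≠ sh j a b c e ∧ 1 ≤ sh 1 a b c e ∧ sh 1 a b c e ≤ 8 := by
  simpa only [List.mem_range] using key0

lemma cl_mul (i x : ℕ) (hi : i ≠ 0) (hx : x ≠ 0) : cl (i * x) = sh i (red (padicValNat 2 x))
    (padicValNat 3 x % 2) (red (padicValNat 5 x)) (red (padicValNat 7 x)) := by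
  have : Fact (Nat.Prime 5) := ⟨by norm_num⟩
  have : Fact (Nat.Prime 7) := ⟨by norm_num⟩
  rw [cl, padicValNat.mul hi hx, padicValNat.mul hi hx, padicValNat.mul hi hx,
    padicValNat.mul hi hx, col_red, sh]

lemma red_lt (a : ℕ) : red a < 5 := by unfold red; split_ifs <;> omega

lemma sat : SatNat 8 cl := by
  refine ⟨fun x hx => ?_, fun i h1 h2 => ?_, fun x hx i j h1 h2 h3 => ?_⟩
  · rw [← one_mul x, cl_mul 1 x one_ne_zero hx.1.ne']
    exact (key _ (red_lt _) _ (Nat.mod_lt _ two_pos) _ (red_lt _) _ (red_lt _) 2 (by norm_num) 1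
      (by norm_num) le_rfl).2
  · interval_cases i <;> decide +kernel
  · rw [cl_mul i x (by omega) hx.1.ne', cl_mul j x (by omega) hx.1.ne']
    exact (key _ (red_lt _) _ (Nat.mod_lt _ two_pos) _ (red_lt _) _ (red_lt _) j (by omega) i
      h2 h1).1

lemma sm (w : ℕ) (h : w ∣ 210 ^ 4) : Smooth 8 w :=
  ⟨Nat.pos_of_dvd_of_pos h (by norm_num), fun p hp hw => by
    have := hp.dvd_of_dvd_pow (hw.trans h)
    rw [show 210 = 2 * 3 * 5 * 7 from rfl] at this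
    simp only [hp.dvd_mul] at this
    rcases this with ((h | h) | h) | h <;> have := Nat.le_of_dvd (by norm_num) h <;> omega⟩

theorem result : ∃ n : ℕ, 0 < n ∧ ∃ c : ℕ → ℕ, SatNat n c ∧
    ¬ ∃ c' : ℚ → ℕ, SatRat n c' ∧ ∀ x : ℕ, Smooth n x → c' x = c x := by
  refine ⟨8, by norm_num, cl, sat, ?_⟩
  rintro ⟨c, ⟨h1, -, h2⟩, h3⟩
  have hK : ∀ w : ℕ, w ∣ 210 ^ 4 → (w : ℚ) / 7 ∈ K 8 := fun w hw =>
    ⟨w, 7, sm w hw, sm 7 (by norm_num), rfl⟩
  have A : ∀ w i j : ℕ, w ∣ 210 ^ 4 ∧ 1 ≤ i ∧ i < j ∧ j ≤ 8 →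
      c ((i * w : ℕ) / 7) ≠ c ((j * w : ℕ) / 7) := fun w i j h => by
    simpa [mul_div_assoc] using h2 _ (hK w h.1) i j h.2.1 h.2.2.1 h.2.2.2
  have B : ∀ N : ℕ, N ∣ 210 ^ 4 → ∀ k, (∀ m ∈ Finset.Icc 1 8, m ∉ k →
      ∃ i ∈ Finset.Icc 1 8, i ≠ 7 ∧ i ∣ N ∧ cl (N / i) = m) → c (N / 7) ∈ (k : List ℕ) := by
    intro N hN k hk
    by_contra hc
    obtain ⟨i, hi, i7, ⟨w, rfl⟩, e⟩ := hk _ (Finset.mem_Icc.2 (h1 _ (hK N hN))) hc
    obtain ⟨i1, i8⟩ := Finset.mem_Icc.1 hi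
    have hw := (Dvd.intro_left i rfl).trans hN
    rw [Nat.mul_div_cancel_left _ i1, ← h3 w (sm w hw),
      show (w : ℚ) = (7 * w : ℕ) / 7 by push_cast; ring] at e
    rcases lt_or_gt_of_ne i7 with h | h
    · exact A w i 7 ⟨hw, i1, h, by norm_num⟩ e.symm
    · exact A w 7 i ⟨hw, by norm_num, h, i8⟩ e
  have b1 := B 72 (by norm_num) [3, 6] (by decide +kernel)
  have b2 := B 300 (by norm_num) [4, 7] (by decide +kernel)
  have b3 := B 60 (by norm_num) [4, 6] (by decide +kernel)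
  have b4 := B 240 (by norm_num) [7] (by decide +kernel)
  have b5 := B 360 (by norm_num) [3] (by decide +kernel)
  have a1 := A 60 4 5 (by norm_num)
  have a2 := A 60 1 5 (by norm_num)
  have a3 := A 12 5 6 (by norm_num)
  have a4 := A 72 1 5 (by norm_num)
  simp only [List.mem_cons, List.not_mem_nil, or_false, Nat.reduceMul] at *
  omega

end Pool.Agent.Results.MP_bda3cd_nt.NotExtendable
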